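import Pool.Agent.Q154.War.RadiiConst

/-!
# Lattice points on k-spheres with generic centre: an asymptotic formula for almost all integers

Let `k ≥ 3` and `n ≥ k + 1`. For Lebesgue-almost every centre `α ∈ ℝⁿ` the number of points of
`α + ℤⁿ` in the shell `N ≤ |y₁|^k + ⋯ + |yₙ|^k < N + 1` is, with a power saving in the error term,
the volume `(2 Γ(1 + 1/k))ⁿ / Γ(n/k) · N^(n/k - 1)` for all integers `N ≤ X` but `O(X^(1 - δ))`. The
condition is optimal: for `n ≤ k` there are not enough lattice points.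
-/

set_option autoImplicit false

namespace Pool.Agent.Results.MP_927be3_nt.AlmostAllIntegers

open MeasureTheory Filter Topology Pool.Agent.Q154.War

/-- **Almost all integral radii.** -/
theorem result (k n : ℕ) (hk : 3 ≤ k) (hn : k + 1 ≤ n) :
    ∃ δ : ℝ, 0 < δ ∧ ∀ᵐ α : Fin n → ℝ, ∃ C : ℝ, ∀ X : ℝ, 1 ≤ X →
      ({N : ℕ | 1 ≤ N ∧ (N : ℝ) ≤ X ∧ C * (N : ℝ) ^ ((n : ℝ) / k - 1 - δ) <
        |({x : Fin n → ℤ | ⌊∑ i, |(x i : ℝ) + α i| ^ k⌋ = (N : ℤ)}.ncard : ℝ) -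
          (2 * Real.Gamma (1 + 1 / (k : ℝ))) ^ n / Real.Gamma ((n : ℝ) / k) *
            (N : ℝ) ^ ((n : ℝ) / k - 1)|}.ncard : ℝ) ≤ C * X ^ (1 - δ) := by
  have hce := radii_const (k := k) (n := n) (by omega) (by omega)
  obtain ⟨δ, h1, _, h3⟩ := ae_int (k := k) (n := n) hk hn
  rw [hce] at h3
  exact ⟨δ, h1, h3⟩

end Pool.Agent.Results.MP_927be3_nt.AlmostAllIntegers
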