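import Pool.Agent.Q154.War.Limit

/-!
# Lattice points on `k`-spheres with generic centre: the asymptotic formula holds for `d ≥ 2k + 1`

Let `k ≥ 3` and `n ≥ 2k + 1`. For Lebesgue-almost every centre `α ∈ ℝⁿ` the number of points of
`α + ℤⁿ` in the shell `N ≤ |y₁|^k + ⋯ + |yₙ|^k < N + 1` is asymptotic, as the integer `N = r^k`
tends to infinity, to the volume `(2 Γ(1 + 1/k))ⁿ / Γ(n/k) · N^(n/k - 1) ≍ r^(n - k)` of the shell.
More generally this is proved for the much thinner shells of width `2 κ N^(-γ)`, for every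
`0 ≤ γ < n/(2k) - 1`.
-/

set_option autoImplicit false

namespace Pool.Agent.Results.MP_927be3_nt.GenericCenters

open MeasureTheory Filter Topology Pool.Agent.Q154.War

lemma const_eq {k n : ℕ} (hk : 1 ≤ k) (hn : 1 ≤ n) :
    2 * ((n : ℝ) / k) * vc k n =
      2 * ((2 * Real.Gamma (1 + 1 / (k : ℝ))) ^ n / Real.Gamma ((n : ℝ) / k)) := by
  have hk0 : (0 : ℝ) < k := by exact_mod_cast hk
  have hn0 : (0 : ℝ) < n := by exact_mod_cast hn
  have hp : (0 : ℝ) < (n : ℝ) / k := by positivity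
  have h1 : Real.Gamma ((n : ℝ) / k + 1) = (n : ℝ) / k * Real.Gamma ((n : ℝ) / k) :=
    Real.Gamma_add_one hp.ne'
  have h2 : 0 < Real.Gamma ((n : ℝ) / k) := Real.Gamma_pos_of_pos hp
  unfold vc
  rw [h1, add_comm (1 / (k : ℝ)) 1]
  field_simp

theorem result (k n : ℕ) (hk : 3 ≤ k) (hn : 2 * k + 1 ≤ n) :
    (∀ κ γ : ℝ, 0 < κ → 0 ≤ γ → k * γ < n / 2 - k →
      ∀ᵐ α : Fin n → ℝ, Tendsto
        (fun N : ℝ => ({x : Fin n → ℤ | |∑ i, |(x i : ℝ) + α i| ^ k - N| < κ * N ^ (-γ)}.ncard : ℝ) /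
          (κ * N ^ ((n : ℝ) / k - 1 - γ)))
        atTop (𝓝 (2 * ((2 * Real.Gamma (1 + 1 / (k : ℝ))) ^ n / Real.Gamma ((n : ℝ) / k))))) ∧
    (∀ᵐ α : Fin n → ℝ, Tendsto
      (fun N : ℕ => ({x : Fin n → ℤ | ⌊∑ i, |(x i : ℝ) + α i| ^ k⌋ = (N : ℤ)}.ncard : ℝ) /
        (N : ℝ) ^ ((n : ℝ) / k - 1))
      atTop (𝓝 ((2 * Real.Gamma (1 + 1 / (k : ℝ))) ^ n / Real.Gamma ((n : ℝ) / k)))) := by
  set L : ℝ := (2 * Real.Gamma (1 + 1 / (k : ℝ))) ^ n / Real.Gamma ((n : ℝ) / k) with hL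
  have hce := const_eq (k := k) (n := n) (by omega) (by omega)
  rw [← hL] at hce
  have hk0 : (0 : ℝ) < k := by exact_mod_cast (show 0 < k by omega)
  have h2kn : (2 * (k : ℝ) + 1) ≤ n := by exact_mod_cast hn
  have h1 : ∀ κ γ : ℝ, 0 < κ → 0 ≤ γ → k * γ < n / 2 - k →
      ∀ᵐ α : Fin n → ℝ, Tendsto
        (fun N : ℝ => ({x : Fin n → ℤ | |∑ i, |(x i : ℝ) + α i| ^ k - N| < κ * N ^ (-γ)}.ncard : ℝ) /
          (κ * N ^ ((n : ℝ) / k - 1 - γ))) atTop (𝓝 (2 * L)) := by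
    intro κ γ hκ hγ hγ2
    have h := ae_tendsto' (k := k) (n := n) hk hn hκ hγ hγ2
    rw [hce] at h
    exact h
  refine ⟨h1, ?_⟩
  obtain ⟨p, hp⟩ : ∃ p : ℝ, p = (n : ℝ) / k - 1 := ⟨_, rfl⟩
  have hp0 : 0 < p := by
    rw [hp, sub_pos, lt_div_iff₀ hk0]
    linarith
  rw [← hp]
  -- the normalised counting function for the width `2 κ`
  obtain ⟨Rf, hRf⟩ : ∃ Rf : (Fin n → ℝ) → ℝ → ℝ → ℝ, ∀ α κ N, Rf α κ N =
      ((Lat k n α N κ).ncard : ℝ) / (κ * N ^ p) :=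
    ⟨fun α κ N => ((Lat k n α N κ).ncard : ℝ) / (κ * N ^ p), fun _ _ _ => rfl⟩
  have h1' : ∀ κ : ℝ, 0 < κ → ∀ᵐ α : Fin n → ℝ, Tendsto (Rf α κ) atTop (𝓝 (2 * L)) := by
    intro κ hκ
    filter_upwards [h1 κ 0 hκ le_rfl (by rw [mul_zero]; linarith)] with α hα
    refine hα.congr fun N => ?_
    rw [hRf, sub_zero, ← hp, neg_zero, Real.rpow_zero, mul_one]
    rfl
  have hκpos : ∀ l : ℕ, 0 < 1 / 2 + 1 / ((l : ℝ) + 1) := fun l => by positivity
  have hall := ae_all_iff.2 fun l : ℕ => h1' (1 / 2 + 1 / ((l : ℝ) + 1)) (hκpos l)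
  have hhalf := h1' (1 / 2) (by norm_num)
  have ht : Tendsto (fun N : ℕ => (N : ℝ) + 1 / 2) atTop atTop :=
    tendsto_atTop_add_const_right _ _ tendsto_natCast_atTop_atTop
  have hr : Tendsto (fun N : ℕ => (((N : ℝ) + 1 / 2) / N) ^ p) atTop (𝓝 1) := by
    have h2 : Tendsto (fun N : ℕ => ((N : ℝ) + 1 / 2) / N) atTop (𝓝 1) := by
      have h3 : Tendsto (fun N : ℕ => 1 + 1 / 2 / (N : ℝ)) atTop (𝓝 (1 + 0)) :=
        (tendsto_const_div_atTop_nhds_zero_nat (1 / 2)).const_add 1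
      rw [add_zero] at h3
      refine h3.congr' ?_
      filter_upwards [eventually_gt_atTop 0] with N hN
      have : (0 : ℝ) < N := by exact_mod_cast hN
      field_simp
    have h4 := h2.rpow_const (p := p) (Or.inl one_ne_zero)
    rwa [Real.one_rpow] at h4
  filter_upwards [hall, hhalf] with α hα hα2
  -- finiteness
  have hfin : ∀ N b : ℝ, (Lat k n α N b).Finite := by
    intro N b
    have hcube : ∀ i, (α + fun i => -((⌊α i⌋ : ℤ) : ℝ)) i ∈ Set.Icc (0 : ℝ) 1 := by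
      intro i
      have h3 := Int.floor_le (α i)
      have h4 := (Int.lt_floor_add_one (α i)).le
      constructor
      · simp only [Pi.add_apply]
        linarith
      · simp only [Pi.add_apply]
        linarith
    have h6 := finite_Lat (k := k) (n := n) (by omega) hcube N b
    have e : Lat k n α N b ⊆ (fun x => x + fun i => ⌊α i⌋) ⁻¹'
        Lat k n (α + fun i => -((⌊α i⌋ : ℤ) : ℝ)) N b := by
      intro x hx
      have h7 : |∑ i, |(x i : ℝ) + α i| ^ k - N| < b := hx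
      have h8 : |∑ i, |((x + fun i => ⌊α i⌋) i : ℝ) + (α i + -((⌊α i⌋ : ℤ) : ℝ))| ^ k - N| < b := by
        convert h7 using 4 with i
        simp only [Pi.add_apply]
        push_cast
        congr 2
        ring
      exact h8
    exact (h6.preimage ((add_left_injective _).injOn)).subset e
  have hsub1 : ∀ N : ℕ, Lat k n α ((N : ℝ) + 1 / 2) (1 / 2) ⊆
      {x : Fin n → ℤ | ⌊∑ i, |(x i : ℝ) + α i| ^ k⌋ = (N : ℤ)} := by
    intro N x hx
    have h7 : |∑ i, |(x i : ℝ) + α i| ^ k - ((N : ℝ) + 1 / 2)| < 1 / 2 := hx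
    rw [abs_lt] at h7
    have h8 : ⌊∑ i, |(x i : ℝ) + α i| ^ k⌋ = (N : ℤ) := by
      rw [Int.floor_eq_iff]
      push_cast
      constructor
      · linarith [h7.1]
      · linarith [h7.2]
    exact h8
  have hsub2 : ∀ (N : ℕ) (κ : ℝ), 1 / 2 < κ →
      {x : Fin n → ℤ | ⌊∑ i, |(x i : ℝ) + α i| ^ k⌋ = (N : ℤ)} ⊆
        Lat k n α ((N : ℝ) + 1 / 2) κ := by
    intro N κ hκ x hx
    have h7 : ⌊∑ i, |(x i : ℝ) + α i| ^ k⌋ = (N : ℤ) := hx
    rw [Int.floor_eq_iff] at h7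
    push_cast at h7
    have h8 : |∑ i, |(x i : ℝ) + α i| ^ k - ((N : ℝ) + 1 / 2)| < κ := by
      rw [abs_lt]
      constructor
      · linarith [h7.1]
      · linarith [h7.2]
    exact h8
  have hrat : ∀ (κ : ℝ) (N : ℕ), 0 < κ → ((Lat k n α ((N : ℝ) + 1 / 2) κ).ncard : ℝ) =
      κ * ((N : ℝ) + 1 / 2) ^ p * Rf α κ ((N : ℝ) + 1 / 2) := by
    intro κ N hκ
    have h9 : (0 : ℝ) < κ * ((N : ℝ) + 1 / 2) ^ p := by positivity
    rw [hRf, mul_div_cancel₀ _ h9.ne']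
  have hRf0 : ∀ (κ : ℝ) (N : ℕ), 0 < κ → 0 ≤ Rf α κ ((N : ℝ) + 1 / 2) := by
    intro κ N hκ
    rw [hRf]
    positivity
  rw [tendsto_order]
  constructor
  · intro a' ha'
    have h3 := (hα2.comp ht).const_mul (1 / 2)
    have h4 : (1 : ℝ) / 2 * (2 * L) = L := by ring
    rw [h4] at h3
    filter_upwards [h3.eventually (lt_mem_nhds ha'), eventually_gt_atTop 0] with N h5 hN
    have hN0 : (0 : ℝ) < N := by exact_mod_cast hN
    refine h5.trans_le ?_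
    rw [le_div_iff₀ (by positivity)]
    have h6 : ((Lat k n α ((N : ℝ) + 1 / 2) (1 / 2)).ncard : ℝ) ≤
        ({x : Fin n → ℤ | ⌊∑ i, |(x i : ℝ) + α i| ^ k⌋ = (N : ℤ)}.ncard : ℝ) := by
      exact_mod_cast Set.ncard_le_ncard (hsub1 N) ((hfin _ _).subset (hsub2 N 1 (by norm_num)))
    rw [hrat (1 / 2) N (by norm_num)] at h6
    refine le_trans ?_ h6
    have h7 : (N : ℝ) ^ p ≤ ((N : ℝ) + 1 / 2) ^ p := Real.rpow_le_rpow hN0.le (by linarith) hp0.le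
    simp only [Function.comp_apply]
    have hR0 := hRf0 (1 / 2) N (by norm_num)
    calc 1 / 2 * Rf α (1 / 2) ((N : ℝ) + 1 / 2) * (N : ℝ) ^ p ≤
          1 / 2 * Rf α (1 / 2) ((N : ℝ) + 1 / 2) * ((N : ℝ) + 1 / 2) ^ p :=
          mul_le_mul_of_nonneg_left h7 (by positivity)
      _ = 1 / 2 * ((N : ℝ) + 1 / 2) ^ p * Rf α (1 / 2) ((N : ℝ) + 1 / 2) := by ring
  · intro a' ha'
    have h0 : Tendsto (fun l : ℕ => (1 / 2 + 1 / ((l : ℝ) + 1)) * (2 * L)) atTop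
        (𝓝 ((1 / 2 + 0) * (2 * L))) :=
      ((tendsto_one_div_add_atTop_nhds_zero_nat (𝕜 := ℝ)).const_add (1 / 2)).mul_const _
    have h0' : (1 / 2 + 0 : ℝ) * (2 * L) = L := by ring
    rw [h0'] at h0
    obtain ⟨l, hl⟩ := (h0.eventually (gt_mem_nhds ha')).exists
    have hαl := hα l
    have hκ0 := hκpos l
    have hκ1 : (1 : ℝ) / 2 < 1 / 2 + 1 / ((l : ℝ) + 1) := by
      have : 0 < 1 / ((l : ℝ) + 1) := by positivity
      linarith
    generalize (1 : ℝ) / 2 + 1 / ((l : ℝ) + 1) = κ at hl hαl hκ0 hκ1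
    have h3 := ((hαl.comp ht).const_mul κ).mul hr
    rw [mul_one] at h3
    filter_upwards [h3.eventually (gt_mem_nhds hl), eventually_gt_atTop 0] with N h5 hN
    have hN0 : (0 : ℝ) < N := by exact_mod_cast hN
    refine lt_of_le_of_lt ?_ h5
    rw [div_le_iff₀ (by positivity)]
    have h6 : ({x : Fin n → ℤ | ⌊∑ i, |(x i : ℝ) + α i| ^ k⌋ = (N : ℤ)}.ncard : ℝ) ≤
        ((Lat k n α ((N : ℝ) + 1 / 2) κ).ncard : ℝ) := by
      exact_mod_cast Set.ncard_le_ncard (hsub2 N κ hκ1) (hfin _ _)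
    rw [hrat κ N hκ0] at h6
    refine h6.trans_eq ?_
    simp only [Function.comp_apply]
    rw [Real.div_rpow (by positivity) hN0.le]
    have hNp : (0 : ℝ) < (N : ℝ) ^ p := by positivity
    generalize Rf α κ ((N : ℝ) + 1 / 2) = R
    generalize ((N : ℝ) + 1 / 2) ^ p = M
    field_simp

end Pool.Agent.Results.MP_927be3_nt.GenericCenters
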