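import Mathlib
import Pool.Agent.Results.MP_927be3_nt.AtLeastKPlusTwo

open Finset

namespace Pool.Agent.Results.MP_927be3_nt.LocalLowerBounds

/-- The arithmetic `k`-sphere `S_{k,d}(r)` of radius `r` in dimension `d`. -/
def sphere (k d : ℕ) (r : ℝ) : Set (Fin d → ℤ) := {m | ∑ i, |(m i : ℝ)| ^ k = r ^ k}

/-- `N_{k,d}(r) ≍ r^{d-k}`: there are `0 < c ≤ C` and `r₀` with `c r^{d-k} ≤ N_{k,d}(r) ≤ C r^{d-k}`
for all radii `r ≥ r₀`, `r > 0`, with non-empty `S_{k,d}(r)` (these are the radii in `R_{k,d}`). -/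
def OrderHolds (k d : ℕ) : Prop :=
  ∃ c C r₀ : ℝ, 0 < c ∧ c ≤ C ∧ ∀ r : ℝ, 0 < r → r₀ ≤ r → (sphere k d r).Nonempty →
    c * r ^ ((d : ℝ) - k) ≤ ((sphere k d r).ncard : ℝ) ∧
      ((sphere k d r).ncard : ℝ) ≤ C * r ^ ((d : ℝ) - k)

/-- `q` is a modulus at which `0` is not a primitive sum of `d` `k`-th powers (`q` a multiple of
the prime `p`): every solution of `x_1^k + ... + x_d^k ≡ 0 (mod q)` has all `x_i` divisible
by `p`. -/
def NoPrimitiveZero (p q k d : ℕ) : Prop :=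
  ∀ x : Fin d → ℕ, q ∣ ∑ i, x i ^ k → ∀ i, p ∣ x i

/-- the integral form of the sphere of integral radius. -/
theorem mem_sphere_iff {k d : ℕ} (a : ℕ) (m : Fin d → ℤ) :
    m ∈ sphere k d (a : ℝ) ↔ ∑ i, (m i).natAbs ^ k = a ^ k := by
  unfold sphere
  simp only [Set.mem_ofPred_eq]
  have : ∀ i, |(m i : ℝ)| = (((m i).natAbs : ℕ) : ℝ) := by
    intro i
    rw [Nat.cast_natAbs, Int.cast_abs]
  simp only [this]
  constructor
  · intro h
    have : ((∑ i, (m i).natAbs ^ k : ℕ) : ℝ) = ((a ^ k : ℕ) : ℝ) := by push_cast; exact h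
    exact_mod_cast this
  · intro h
    have : ((∑ i, (m i).natAbs ^ k : ℕ) : ℝ) = ((a ^ k : ℕ) : ℝ) := by rw [h]
    push_cast at this
    exact this

theorem sphere_finite {k d : ℕ} (hk : 1 ≤ k) (a : ℕ) : (sphere k d (a : ℝ)).Finite := by
  apply Set.Finite.subset (Set.finite_Icc (fun _ : Fin d => -((a : ℤ) ^ k)) (fun _ => (a : ℤ) ^ k))
  intro m hm
  rw [mem_sphere_iff] at hm
  have h : ∀ i, |m i| ≤ (a : ℤ) ^ k := by
    intro i
    have h1 : (m i).natAbs ≤ (m i).natAbs ^ k := by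
      exact Nat.le_self_pow (by omega) _
    have h2 : (m i).natAbs ^ k ≤ ∑ j, (m j).natAbs ^ k :=
      Finset.single_le_sum (f := fun j => (m j).natAbs ^ k) (fun _ _ => Nat.zero_le _) (mem_univ i)
    have h3 : (m i).natAbs ≤ a ^ k := by omega
    rw [Int.abs_eq_natAbs]
    exact_mod_cast h3
  rw [Set.mem_Icc, Pi.le_def, Pi.le_def]
  exact ⟨fun i => (abs_le.mp (h i)).1, fun i => (abs_le.mp (h i)).2⟩

/-- dividing by `p`: no new points on the sphere of radius `p a`. -/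
theorem ncard_mul_le {k d p q : ℕ} (hk : 1 ≤ k) (hp : p.Prime) (hq : q ∣ p ^ k)
    (hN : NoPrimitiveZero p q k d) (a : ℕ) :
    (sphere k d ((p * a : ℕ) : ℝ)).ncard ≤ (sphere k d (a : ℝ)).ncard := by
  have hdiv : ∀ m ∈ sphere k d ((p * a : ℕ) : ℝ), ∀ i, (p : ℤ) ∣ m i := by
    intro m hm i
    rw [mem_sphere_iff] at hm
    have h1 : q ∣ ∑ i, (m i).natAbs ^ k := by
      rw [hm, mul_pow]
      exact hq.mul_right _
    have := hN (fun i => (m i).natAbs) h1 i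
    exact Int.natCast_dvd.mpr this
  have hp0 : (p : ℤ) ≠ 0 := by exact_mod_cast hp.ne_zero
  refine Set.ncard_le_ncard_of_injOn (fun m i => m i / (p : ℤ)) ?_ ?_ (sphere_finite hk a)
  · intro m hm
    have h1 := hdiv m hm
    rw [mem_sphere_iff] at hm ⊢
    have h2 : ∀ i, (m i).natAbs = p * (m i / (p : ℤ)).natAbs := by
      intro i
      obtain ⟨c, hc⟩ := h1 i
      rw [hc, Int.mul_ediv_cancel_left _ hp0, Int.natAbs_mul]
      simp
    have h3 : p ^ k * ∑ i, (m i / (p : ℤ)).natAbs ^ k = p ^ k * a ^ k := by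
      rw [← mul_pow, ← hm, Finset.mul_sum]
      apply Finset.sum_congr rfl
      intro i _
      rw [h2 i, mul_pow]
    exact Nat.eq_of_mul_eq_mul_left (pow_pos hp.pos k) h3
  · intro m hm m' hm' h
    funext i
    have e := congrFun h i
    simp only at e
    obtain ⟨c, hc⟩ := hdiv m hm i
    obtain ⟨c', hc'⟩ := hdiv m' hm' i
    rw [hc, hc', Int.mul_ediv_cancel_left _ hp0, Int.mul_ediv_cancel_left _ hp0] at e
    rw [hc, hc', e]

theorem ncard_pow_le {k d p q : ℕ} (hk : 1 ≤ k) (hp : p.Prime) (hq : q ∣ p ^ k)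
    (hN : NoPrimitiveZero p q k d) (j : ℕ) :
    (sphere k d ((p ^ j : ℕ) : ℝ)).ncard ≤ (sphere k d ((1 : ℕ) : ℝ)).ncard := by
  induction j with
  | zero => simp
  | succ j ih =>
    have := ncard_mul_le hk hp hq hN (p ^ j)
    rw [← pow_succ'] at this
    exact this.trans ih

theorem nonempty_pow {k d : ℕ} (hk : 1 ≤ k) (hd : 1 ≤ d) (a : ℕ) :
    (sphere k d (a : ℝ)).Nonempty := by
  refine ⟨Pi.single (⟨0, hd⟩ : Fin d) (a : ℤ), ?_⟩
  rw [mem_sphere_iff]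
  rw [Finset.sum_eq_single (⟨0, hd⟩ : Fin d)]
  · simp
  · intro b _ hb
    rw [Pi.single_eq_of_ne hb, Int.natAbs_zero, zero_pow (by omega)]
  · simp

/-- The general local criterion, for `d > k`. -/
theorem not_orderHolds {k d p q : ℕ} (hk : 1 ≤ k) (hd : k < d) (hp : p.Prime) (hq : q ∣ p ^ k)
    (hN : NoPrimitiveZero p q k d) : ¬ OrderHolds k d := by
  rintro ⟨c, C, r₀, hc, _, h⟩
  set M : ℝ := ((sphere k d ((1 : ℕ) : ℝ)).ncard : ℝ) with hM
  have hp1 : (1 : ℝ) < p := by exact_mod_cast hp.one_lt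
  obtain ⟨j, hj⟩ := pow_unbounded_of_one_lt (max r₀ (M / c + 1)) hp1
  have hj1 : r₀ < (p : ℝ) ^ j := lt_of_le_of_lt (le_max_left _ _) hj
  have hj2 : M / c + 1 < (p : ℝ) ^ j := lt_of_le_of_lt (le_max_right _ _) hj
  have hpos : (0 : ℝ) < (p : ℝ) ^ j := by positivity
  have hone : (1 : ℝ) ≤ (p : ℝ) ^ j := one_le_pow₀ hp1.le
  have hcast : ((p ^ j : ℕ) : ℝ) = (p : ℝ) ^ j := by push_cast; rfl
  have h1 := (h ((p ^ j : ℕ) : ℝ) (by rw [hcast]; exact hpos) (by rw [hcast]; exact hj1.le)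
    (nonempty_pow hk (by omega) _)).1
  have h2 : ((sphere k d ((p ^ j : ℕ) : ℝ)).ncard : ℝ) ≤ M := by
    rw [hM]
    exact Nat.cast_le.mpr (ncard_pow_le hk hp hq hN j)
  have h3 : ((p ^ j : ℕ) : ℝ) ≤ ((p ^ j : ℕ) : ℝ) ^ ((d : ℝ) - k) := by
    rw [hcast]
    have : (1 : ℝ) ≤ (d : ℝ) - k := by
      have : (k : ℝ) + 1 ≤ d := by exact_mod_cast hd
      linarith
    calc (p : ℝ) ^ j = ((p : ℝ) ^ j) ^ (1 : ℝ) := by rw [Real.rpow_one]
      _ ≤ ((p : ℝ) ^ j) ^ ((d : ℝ) - k) := Real.rpow_le_rpow_of_exponent_le hone this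
  have h4 : c * ((p ^ j : ℕ) : ℝ) ≤ M := by
    calc c * ((p ^ j : ℕ) : ℝ) ≤ c * ((p ^ j : ℕ) : ℝ) ^ ((d : ℝ) - k) := by
          apply mul_le_mul_of_nonneg_left h3 hc.le
      _ ≤ _ := h1.trans h2
  rw [hcast] at h4
  have h5 : c * (M / c + 1) < c * (p : ℝ) ^ j := mul_lt_mul_of_pos_left hj2 hc
  have h6 : c * (M / c + 1) = M + c := by field_simp
  linarith

/-- counting the terms prime to `p`. -/
theorem noPrimitiveZero_of {p q k d : ℕ} (hd : d < q) (h1 : ∀ x : ℕ, ¬ p ∣ x → x ^ k ≡ 1 [MOD q])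
    (h0 : ∀ x : ℕ, p ∣ x → q ∣ x ^ k) : NoPrimitiveZero p q k d := by
  intro x hx i
  by_contra hi
  have hs : ∑ i, x i ^ k ≡ (univ.filter (fun i => ¬ p ∣ x i)).card [MOD q] := by
    rw [Finset.card_filter]
    apply Nat.ModEq.sum
    intro j _
    by_cases hj : p ∣ x j
    · rw [if_neg (by simpa using hj)]
      exact (Nat.modEq_zero_iff_dvd).mpr (h0 _ hj)
    · rw [if_pos hj]
      exact h1 _ hj
  have h2 : (univ.filter (fun i => ¬ p ∣ x i)).card ≡ 0 [MOD q] :=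
    hs.symm.trans ((Nat.modEq_zero_iff_dvd).mpr hx)
  have h3 : (univ.filter (fun i => ¬ p ∣ x i)).card ≤ d := by
    calc _ ≤ (univ : Finset (Fin d)).card := Finset.card_filter_le _ _
      _ = d := by simp
  have h4 : 0 < (univ.filter (fun i => ¬ p ∣ x i)).card :=
    Finset.card_pos.mpr ⟨i, by simp [hi]⟩
  have h5 : q ∣ (univ.filter (fun i => ¬ p ∣ x i)).card := (Nat.modEq_zero_iff_dvd).mp h2
  have := Nat.le_of_dvd h4 h5
  omega

/-- the prime `2`: odd numbers to the power `2^θ` are `1` modulo `2^(θ+2)`. -/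
theorem odd_pow_two_pow (x : ℕ) (hx : ¬ 2 ∣ x) (θ : ℕ) (hθ : 1 ≤ θ) :
    x ^ (2 ^ θ) ≡ 1 [MOD 2 ^ (θ + 2)] := by
  induction θ, hθ using Nat.le_induction with
  | base =>
    have h : x % 8 = 1 ∨ x % 8 = 3 ∨ x % 8 = 5 ∨ x % 8 = 7 := by omega
    have e : (2 : ℕ) ^ (1 + 2) = 8 := by norm_num
    rw [e, Nat.ModEq, Nat.pow_mod]
    rcases h with h | h | h | h <;> rw [h] <;> norm_num
  | succ θ _ ih =>
    have h1 : (1 : ℕ) ≤ x ^ (2 ^ θ) := Nat.one_le_pow _ _ (by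
      rcases Nat.eq_zero_or_pos x with h | h
      · subst h; simp at hx
      · exact h)
    have h2 : 2 ^ (θ + 2) ∣ x ^ (2 ^ θ) - 1 := (Nat.modEq_iff_dvd' h1).mp ih.symm
    have h3 : ¬ 2 ∣ x ^ (2 ^ θ) := fun h => hx (Nat.prime_two.dvd_of_dvd_pow h)
    have h4 : 2 ∣ x ^ (2 ^ θ) + 1 := by omega
    have h5 : x ^ (2 ^ (θ + 1)) - 1 = (x ^ (2 ^ θ) + 1) * (x ^ (2 ^ θ) - 1) := by
      have := Nat.sq_sub_sq (x ^ (2 ^ θ)) 1
      rw [← this, pow_succ, pow_mul, one_pow]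
    have h6 : (1 : ℕ) ≤ x ^ (2 ^ (θ + 1)) := by
      rw [pow_succ, pow_mul]
      exact Nat.one_le_pow _ _ h1
    have h7 : 2 ^ (θ + 1 + 2) ∣ x ^ (2 ^ (θ + 1)) - 1 := by
      rw [h5]
      have : 2 ^ (θ + 1 + 2) = 2 * 2 ^ (θ + 2) := by ring
      rw [this]
      exact Nat.mul_dvd_mul h4 h2
    exact ((Nat.modEq_iff_dvd' h6).mpr h7).symm

theorem self_add_two_le_two_pow (θ k : ℕ) (hk : 3 ≤ k) (h : 2 ^ θ ∣ k) (hθ : 1 ≤ θ) :
    θ + 2 ≤ k := by
  obtain ⟨c, rfl⟩ := h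
  have hc : 1 ≤ c := by
    rcases Nat.eq_zero_or_pos c with h | h
    · subst h; omega
    · exact h
  have h2 : 2 ^ θ ≤ 2 ^ θ * c := Nat.le_mul_of_pos_right _ hc
  rcases Nat.lt_or_ge θ 2 with h | h
  · have : θ = 1 := by omega
    subst this
    omega
  · have : ∀ n : ℕ, 2 ≤ n → n + 2 ≤ 2 ^ n := by
      intro n hn
      induction n, hn using Nat.le_induction with
      | base => norm_num
      | succ n _ ih => rw [pow_succ]; omega
    have := this θ h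
    omega

/-- **Theorem.** Let `k ≥ 3`, `d ≥ 1`, and suppose `N_{k,d}(r) ≍ r^{d-k}` (over the radii with a
lattice point). Then
* for every prime `p` and every `q ∣ p^k`, `0` is a primitive sum of `d` `k`-th powers modulo `q`;
* `d ≥ p^(τ+1)` whenever `p` is an odd prime with `p - 1 ∣ k` and `p^τ ∣ k`;
* `d ≥ 2^(θ+2)` whenever `θ ≥ 1` and `2^θ ∣ k`; in particular `d_0(2^θ) ≥ 4 * 2^θ`. -/
theorem result (k : ℕ) (hk : 3 ≤ k) (d : ℕ) (hd : 1 ≤ d) (h : OrderHolds k d) :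
    (∀ p q : ℕ, p.Prime → q ∣ p ^ k →
      ∃ x : Fin d → ℕ, q ∣ ∑ i, x i ^ k ∧ ∃ i, ¬ p ∣ x i) ∧
    (∀ p τ : ℕ, p.Prime → p ≠ 2 → p - 1 ∣ k → p ^ τ ∣ k → p ^ (τ + 1) ≤ d) ∧
    (∀ θ : ℕ, 1 ≤ θ → 2 ^ θ ∣ k → 2 ^ (θ + 2) ≤ d) := by
  have hkd : k < d := by
    have := Pool.Agent.Results.MP_927be3_nt.AtLeastKPlusTwo.result k hk d hd h
    omega
  have key : ∀ p q : ℕ, p.Prime → q ∣ p ^ k → ¬ NoPrimitiveZero p q k d := by
    intro p q hp hq hN
    exact not_orderHolds (by omega) hkd hp hq hN h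
  refine ⟨?_, ?_, ?_⟩
  · intro p q hp hq
    have := key p q hp hq
    unfold NoPrimitiveZero at this
    push Not at this
    exact this
  · intro p τ hp hp2 h1 h2
    by_contra hlt
    push Not at hlt
    have hcop : Nat.Coprime (p ^ τ) (p - 1) := by
      apply Nat.Coprime.pow_left
      have := hp.two_le
      have h5 : Nat.Coprime (p - 1) ((p - 1) + 1) := by simp
      rw [Nat.sub_add_cancel (by omega)] at h5
      exact h5.symm
    have htot : (p ^ (τ + 1)).totient ∣ k := by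
      rw [Nat.totient_prime_pow_succ hp]
      exact hcop.mul_dvd_of_dvd_of_dvd h2 h1
    have hk0 : 0 < k := by omega
    have hle : τ + 1 ≤ k := by
      have h3 := Nat.le_of_dvd hk0 h2
      have h4 := Nat.lt_pow_self (n := τ) hp.one_lt
      omega
    apply key p (p ^ (τ + 1)) hp (pow_dvd_pow p hle)
    apply noPrimitiveZero_of hlt
    · intro x hx
      have hc : Nat.Coprime x (p ^ (τ + 1)) :=
        Nat.Coprime.pow_right _ (Nat.Coprime.symm ((Nat.Prime.coprime_iff_not_dvd hp).mpr hx))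
      obtain ⟨c, hc2⟩ := htot
      rw [hc2, pow_mul]
      have := (Nat.ModEq.pow_totient hc).pow c
      simpa using this
    · intro x hx
      exact (pow_dvd_pow p hle).trans (pow_dvd_pow_of_dvd hx k)
  · intro θ hθ h2
    by_contra hlt
    push Not at hlt
    have hle := self_add_two_le_two_pow θ k hk h2 hθ
    apply key 2 (2 ^ (θ + 2)) Nat.prime_two (pow_dvd_pow 2 hle)
    apply noPrimitiveZero_of hlt
    · intro x hx
      obtain ⟨c, hc2⟩ := h2
      rw [hc2, pow_mul]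
      have := (odd_pow_two_pow x hx θ hθ).pow c
      simpa using this
    · intro x hx
      exact (pow_dvd_pow 2 hle).trans (pow_dvd_pow_of_dvd hx k)

end Pool.Agent.Results.MP_927be3_nt.LocalLowerBounds
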