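import Pool.Agent.Q154.War.RadiiConst

/-!
# Lattice points in thin shells of k-spheres with generic centre, for almost all radii

Let `k ≥ 3`, `n ≥ k + 1` and `0 ≤ γ < n/k - 1`. For Lebesgue-almost every centre `α ∈ ℝⁿ` the number
of points of `α + ℤⁿ` in the shell of all `y` with `| |y₁|^k + ⋯ + |yₙ|^k - N | < η` is, with a power
saving, its expected value for almost all real `N`, for all widths `η ≥ N^(-γ)`. The range of `γ` is
optimal: for `γ > n/k - 1` the expected number of points tends to zero.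
-/

set_option autoImplicit false

namespace Pool.Agent.Results.MP_927be3_nt.ThinShells

open MeasureTheory Filter Topology Pool.Agent.Q154.War

/-- **Thin shells, almost all radii.** -/
theorem result (k n : ℕ) (hk : 3 ≤ k) (hn : k + 1 ≤ n) (γ : ℝ) (hγ : 0 ≤ γ)
    (hγ2 : k * γ < n - k) :
    ∃ δ : ℝ, 0 < δ ∧ ∀ a : ℝ, 0 < a → ∀ η : ℕ → ℝ,
      (∀ j, a * ((2 : ℝ) ^ j) ^ (-γ) ≤ η j ∧ η j ≤ 1) → ∀ᵐ α : Fin n → ℝ, ∃ C : ℝ, ∀ j : ℕ,
        volume {N : ℝ | 2 ^ j ≤ N ∧ N < 2 ^ (j + 1) ∧ η j * N ^ ((n : ℝ) / k - 1 - δ) <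
          |({x : Fin n → ℤ | |∑ i, |(x i : ℝ) + α i| ^ k - N| < η j}.ncard : ℝ) -
            2 * η j * ((2 * Real.Gamma (1 + 1 / (k : ℝ))) ^ n / Real.Gamma ((n : ℝ) / k)) *
              N ^ ((n : ℝ) / k - 1)|} ≤ ENNReal.ofReal (C * ((2 : ℝ) ^ j) ^ (1 - δ)) := by
  have hce := radii_const (k := k) (n := n) (by omega) (by omega)
  have hk0 : (0 : ℝ) < k := by exact_mod_cast (show 0 < k by omega)
  have hp2 : ∀ (j : ℕ) (e : ℝ), ((2 : ℝ) ^ j) ^ e = ((2 : ℝ) ^ e) ^ j := by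
    intro j e
    rw [← Real.rpow_natCast 2 j, ← Real.rpow_mul (by norm_num),
      ← Real.rpow_mul_natCast (by norm_num)]
    congr 1
    ring
  have hγ3 : γ < n / k - 1 := by
    rw [lt_sub_iff_add_lt, lt_div_iff₀ hk0]
    nlinarith
  obtain ⟨δ, h1, _, _, h4⟩ := ae_shell' (k := k) (n := n) hk hn hγ hγ3
  refine ⟨δ, h1, fun a ha η hη => ?_⟩
  have h5 := h4 a ha η (fun j => by rw [← hp2]; exact (hη j).1) (fun j => (hη j).2)
  filter_upwards [h5] with α ⟨C, hC⟩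
  refine ⟨C, fun j => ?_⟩
  have h6 := hC j
  rw [← hp2] at h6
  refine le_trans (measure_mono ?_) h6
  rintro N ⟨hN1, hN2, hN3⟩
  refine ⟨⟨hN1, hN2⟩, ?_⟩
  rw [hce]
  exact hN3

end Pool.Agent.Results.MP_927be3_nt.ThinShells
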